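import Pool.Agent.H83.X.T3
import Pool.Agent.H85.LF.DCN
import Pool.Agent.H70.X.DC1

/-!
ENTROPY DECREMENT FOR WORDS, TWO-SIDED (Theorem X, row DCX): part 2, ergodic systems with flags
(a port of `Pool.Agent.H85.LF.EN4`).
-/

set_option autoImplicit false

open MeasureTheory ProbabilityTheory Filter Topology Finset

namespace Pool.Agent.H70.X

open Pool.Agent.H24.MR (FinAddInv dens)
open Pool.Agent.H59.MR
open Pool.Agent.H24.T2 (Pset)
open Pool.Agent.H67.AG (T_ME Av Inv)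
open Pool.Agent.H85.LF (Wp Pset_one_two generic wrd flag_residue)
open Pool.Agent.H83.X (T_DCX DcX)

/-- decoupling at the scale `m` for a process with flags -/
def DecSX {Ω α : Type} [MeasurableSpace Ω] (k : ℕ) (P : Measure Ω) (T : Ω ≃ᵐ Ω) (a : Ω → α)
    (D : ℕ → Set Ω) (θ : ℝ) (m : ℕ) : Prop :=
  ∃ X : Finset ℕ, (X.card : ℝ) ≤ θ * (Pset 2 m).card ∧
    ∀ p ∈ Pset 2 m, p ∉ X → ∀ G : Set (Fin k → α),
      |P.real {ω | Wp T a k p ω ∈ G} - p * P.real {ω | ω ∈ D p ∧ Wp T a k p ω ∈ G}| ≤ θ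

/-- the transfer from finitely additive measures to ergodic systems with flags -/
theorem decSX_of_decX (hME : T_ME) {Ω : Type} [MeasurableSpace Ω] {P : Measure Ω}
    [IsProbabilityMeasure P] {T : Ω ≃ᵐ Ω} (hT : Ergodic T P) {α : Type} [Fintype α]
    [MeasurableSpace α] [MeasurableSingletonClass α] (k : ℕ) (θ : ℝ) (a : Ω → α)
    (ha : Measurable a) (D : ℕ → Set Ω) (hD : ∀ p, MeasurableSet (D p))
    (hfl : ∀ p : ℕ, p.Prime → ∀ᵐ ω ∂P, ∃ r : ℕ, ∀ n, T^[n] ω ∈ D p ↔ p ∣ n + r) (M : Finset ℕ)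
    (hM : ∀ m ∈ M, 1 ≤ m) :
    ∃ (ν : Set ℕ → ℝ) (b : ℕ → α), FinAddInv ν ∧
      ∀ m ∈ M, DecX k ν b 1 0 θ m → DecSX k P T a D θ m := by
  classical
  set S : Finset ℕ := M.biUnion fun m => Pset 2 m with hS
  have hSp : ∀ p ∈ S, p.Prime := by
    intro p hp
    obtain ⟨m, _, h⟩ := mem_biUnion.1 hp
    exact (mem_filter.1 h).2.1
  -- the functions
  let G1 : S × Set (Fin k → α) × Bool → Set Ω := fun i =>
    if i.2.2 then {ω | ω ∈ D i.1.1 ∧ Wp T a k i.1.1 ω ∈ i.2.1} else {ω | Wp T a k i.1.1 ω ∈ i.2.1}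
  have hWm : ∀ p, Measurable (Wp T a k p) := fun p =>
    measurable_pi_lambda _ fun i => ha.comp (T.measurable.iterate _)
  have hGs : ∀ G : Set (Fin k → α), MeasurableSet G := fun G => (Set.toFinite G).measurableSet
  have hG1 : ∀ i, MeasurableSet (G1 i) := by
    intro i
    simp only [G1]
    split_ifs
    · exact (hD _).inter (hWm _ (hGs _))
    · exact hWm _ (hGs _)
  obtain ⟨ns, hns, hgen⟩ := generic hME hT (fun i => (G1 i).indicator fun _ => (1 : ℝ))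
    (fun i => measurable_const.indicator (hG1 i)) (fun i ω => by
      by_cases h : ω ∈ G1 i
      · simp [h]
      · simp [h])
  have hae2 : ∀ᵐ ω ∂P, ∀ p ∈ S, ∃ r : ℕ, ∀ n, T^[n] ω ∈ D p ↔ p ∣ n + r := by
    have := (Finset.eventually_all S).2 fun p hp => hfl p (hSp p hp)
    exact this
  obtain ⟨ω, hω1, hω2⟩ := (hgen.and hae2).exists
  choose! r hr using hω2
  -- CRT
  have hco : (S : Set ℕ).Pairwise (Function.onFun Nat.Coprime fun p => p) := by
    intro p hp q hq hpq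
    exact (Nat.coprime_primes (hSp p hp) (hSp q hq)).2 hpq
  obtain ⟨c, hc⟩ := Nat.chineseRemainderOfFinset r (fun p => p) S
    (fun p hp => (hSp p hp).ne_zero) hco
  have hdvd : ∀ p ∈ S, ∀ n, p ∣ n + c ↔ T^[n] ω ∈ D p := by
    intro p hp n
    rw [hr p hp n]
    have h1 : n + c ≡ n + r p [MOD p] := Nat.ModEq.add_left n (hc p hp)
    rw [← Nat.modEq_zero_iff_dvd, ← Nat.modEq_zero_iff_dvd]
    exact ⟨fun h => h1.symm.trans h, fun h => h1.trans h⟩
  set U : Ultrafilter ℕ := hyperfilter ℕ with hU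
  have hUat : (U : Filter ℕ) ≤ atTop := Nat.hyperfilter_le_atTop
  have hNU : Tendsto ns (U : Filter ℕ) atTop := hns.tendsto_atTop.mono_left hUat
  have hfa := finAddInv_dens (U := U) (N := ns) hNU
  refine ⟨dens U ns, fun y => a (T^[y - c] ω), hfa, ?_⟩
  -- densities
  have hdens : ∀ i, dens U ns {n | T^[n] ω ∈ G1 i} = P.real (G1 i) := by
    intro i
    apply dens_eq_of_tendsto
    have h1 := (hω1 i).mono_left hUat
    have h2 : ∫ ω, (G1 i).indicator (fun _ => (1 : ℝ)) ω ∂P = P.real (G1 i) := by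
      rw [integral_indicator (hG1 i)]
      simp
    rw [h2] at h1
    refine h1.congr fun j => ?_
    unfold Av ratio
    congr 1
    rw [Finset.card_filter]
    push_cast
    refine Finset.sum_congr rfl fun l _ => ?_
    rw [one_mul]
    by_cases h : T^[l] ω ∈ G1 i
    · simp [h]
    · simp [h]
  have hword : ∀ p n, wrd (fun y => a (T^[y - c] ω)) k p (n + c) = Wp T a k p (T^[n] ω) := by
    intro p n
    funext i
    simp only [wrd, Wp]
    rw [← Function.iterate_add_apply]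
    congr 2
    have : n + c + p * ((i : ℕ) + 1) - c = p * ((i : ℕ) + 1) + n := by omega
    rw [this]
  have e1 : ∀ p ∈ S, ∀ G : Set (Fin k → α),
      dens U ns {y | y ≡ 0 [MOD 1] ∧ wrd (fun y => a (T^[y - c] ω)) k p y ∈ G} =
        P.real {ω | Wp T a k p ω ∈ G} := by
    intro p hp G
    rw [← fai_shift' hfa c]
    have h := hdens (⟨p, hp⟩, G, false)
    simp only [G1] at h
    simp only [Bool.false_eq_true, if_false] at h
    rw [← h]
    congr 1
    ext n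
    simp only [Set.mem_ofPred_eq, hword]
    exact ⟨fun h => h.2, fun h => ⟨Nat.modEq_one, h⟩⟩
  have e2 : ∀ p ∈ S, ∀ G : Set (Fin k → α),
      dens U ns {y | y ≡ 0 [MOD 1] ∧ p ∣ y ∧ wrd (fun y => a (T^[y - c] ω)) k p y ∈ G} =
        P.real {ω | ω ∈ D p ∧ Wp T a k p ω ∈ G} := by
    intro p hp G
    rw [← fai_shift' hfa c]
    have h := hdens (⟨p, hp⟩, G, true)
    simp only [G1] at h
    simp only [if_true] at h
    rw [← h]
    congr 1
    ext n
    simp only [Set.mem_ofPred_eq, hword, hdvd p hp n]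
    exact ⟨fun h => h.2, fun h => ⟨Nat.modEq_one, h⟩⟩
  rintro m hm ⟨X, hX, hX2⟩
  rw [Pset_one_two (hM m hm)] at hX hX2
  refine ⟨X, hX, fun p hp hpX G => ?_⟩
  have hpS : p ∈ S := mem_biUnion.2 ⟨m, hm, hp⟩
  have h := hX2 p hp hpX G
  rw [e1 p hpS G, e2 p hpS G] at h
  simpa using h

/-- [EN4] entropy decrement for words, for all ergodic systems with flags -/
theorem en4X (hME : T_ME) : ∀ (k : ℕ) (α : Type) [Fintype α] [MeasurableSpace α]
    [MeasurableSingletonClass α] (θ ρ : ℝ) (m₀ : ℕ), 0 < θ → θ ≤ 1 → 0 < ρ →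
    ∃ (M : Finset ℕ) (wt : ℕ → ℝ), (∀ m ∈ M, m₀ ≤ m ∧ (Pset 2 m).Nonempty ∧ 0 ≤ wt m) ∧
      ∑ m ∈ M, wt m = 1 ∧
      ∀ (Ω : Type) [MeasurableSpace Ω] (P : Measure Ω) [IsProbabilityMeasure P] (T : Ω ≃ᵐ Ω)
        (a : Ω → α) (D : ℕ → Set Ω), Ergodic T P → Measurable a → (∀ p, MeasurableSet (D p)) →
        (∀ p : ℕ, p.Prime → ∀ᵐ ω ∂P, ∃ r : ℕ, ∀ n, T^[n] ω ∈ D p ↔ p ∣ n + r) →
        ∀ Bad : Finset ℕ, Bad ⊆ M → (∀ m ∈ Bad, ¬ DecSX k P T a D θ m) → ∑ m ∈ Bad, wt m ≤ ρ := by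
  intro k α _ _ _ θ ρ m₀ hθ hθ1 hρ
  obtain ⟨c₀, hc₀, hen⟩ := en3X
  obtain ⟨M, wt, hM, hsum, hmain⟩ := hen 1 k α θ ρ (m₀ + 1) one_pos hθ hθ1 hρ
  refine ⟨M, wt, fun m hm => ⟨by have := (hM m hm).1; omega, ?_, (hM m hm).2.2⟩, hsum, ?_⟩
  · have h := (hM m hm).2.1
    have h1 : 1 ≤ m := by have := (hM m hm).1; omega
    rw [Pset_one_two h1] at h
    rw [← Finset.card_pos]
    have h2 : (0 : ℝ) < m := by exact_mod_cast h1
    have h3 : 0 < c₀ * 2 ^ m / ((Nat.totient 1 : ℕ) * (m : ℝ)) := by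
      simp only [Nat.totient_one, Nat.cast_one, one_mul]
      positivity
    exact_mod_cast lt_of_lt_of_le h3 h
  · intro Ω _ P _ T a D hT ha hD hfl Bad hBad hnd
    obtain ⟨ν, b, hν, h⟩ := decSX_of_decX hME hT k θ a ha D hD hfl M
      (fun m hm => by have := (hM m hm).1; omega)
    exact hmain ν hν b 0 Bad hBad fun m hm hdec => hnd m hm (h m (hBad hm) hdec)

/-- row DCX -/
theorem pf_DCX (hME : T_ME) : T_DCX := by
  intro α _ _ _ R m₀ θ ρ hθ hρ
  have hθ' : 0 < min θ 1 := lt_min hθ one_pos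
  obtain ⟨M, wt, hM, hsum, hmain⟩ := en4X hME R α (min θ 1) ρ m₀ hθ' (min_le_right _ _) hρ
  refine ⟨M, wt, hM, hsum, ?_⟩
  intro Ω _ κ _ T a fl hT ha hfl hper B hB hnd
  refine hmain Ω κ T a fl hT ha hfl
    (fun p hp => flag_residue hT.toMeasurePreserving (fl p) p (hper p hp)) B hB
    fun m hm hdec => hnd m hm ?_
  obtain ⟨X, hX, hX2⟩ := hdec
  refine ⟨X, hX.trans (mul_le_mul_of_nonneg_right (min_le_left _ _) (Nat.cast_nonneg _)), ?_⟩
  intro p hp hpX G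
  exact (hX2 p hp hpX G).trans (min_le_left _ _)

end Pool.Agent.H70.X
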